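import Mathlib

set_option autoImplicit false

open Filter Topology

namespace Pool.Agent.KS6_63.PA

noncomputable section

/-- Data of a basis with fundamental function of power type: upper estimate for the vectors,
dual estimate for the coordinate functionals, bounded thresholding and partial sums. -/
structure Sys (𝕜 : Type) [RCLike 𝕜] (H : Type) [NormedAddCommGroup H] [NormedSpace 𝕜 H] where
  e : ℕ → H
  a : ℕ → H →L[𝕜] 𝕜
  α : ℝ
  α0 : 0 < α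
  α1 : α < 1
  P : ℝ
  U : ℝ
  V : ℝ
  Q : ℝ
  hP : 0 < P
  hU : 0 < U
  hV : 0 < V
  hQ : 0 ≤ Q
  biorth : ∀ m n, a m (e n) = if m = n then 1 else 0
  up : ∀ (s : Finset ℕ) (c : ℕ → 𝕜), (∀ n ∈ s, ‖c n‖ ≤ 1) →
    ‖∑ n ∈ s, c n • e n‖ ≤ U * (s.card : ℝ) ^ α
  dn : ∀ (s : Finset ℕ) (h : H), ∑ n ∈ s, ‖a n h‖ ≤ V * (s.card : ℝ) ^ (1 - α) * ‖h‖
  qg : ∀ (h : H) (τ : ℝ) (B : Finset ℕ), 0 < τ → (∀ n, n ∈ B ↔ τ ≤ ‖a n h‖) →
    ‖∑ n ∈ B, a n h • e n‖ ≤ Q * ‖h‖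
  proj : ∀ (K : ℕ) (h : H), ‖∑ n ∈ Finset.range K, a n h • e n‖ ≤ P * ‖h‖
  conv : ∀ h, Tendsto (fun K => ∑ n ∈ Finset.range K, a n h • e n) atTop (𝓝 h)

/-- Increments of powers. -/
lemma rpow_incr (β : ℝ) (h0 : 0 ≤ β) (h1 : β ≤ 1) (m : ℕ) :
    (m : ℝ) ^ β + β * ((m : ℝ) + 1) ^ (β - 1) ≤ ((m : ℝ) + 1) ^ β := by
  have hm : (0 : ℝ) < (m : ℝ) + 1 := by positivity
  have hm0 : (0 : ℝ) ≤ (m : ℝ) := Nat.cast_nonneg m
  have hb : (1 + (-(1 / ((m : ℝ) + 1)))) ^ β ≤ 1 + β * (-(1 / ((m : ℝ) + 1))) := by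
    apply rpow_one_add_le_one_add_mul_self _ h0 h1
    rw [neg_le_neg_iff, div_le_one hm]
    linarith
  have e1 : (m : ℝ) = ((m : ℝ) + 1) * (1 + (-(1 / ((m : ℝ) + 1)))) := by
    field_simp
    ring
  have e2 : (m : ℝ) ^ β = ((m : ℝ) + 1) ^ β * (1 + (-(1 / ((m : ℝ) + 1)))) ^ β := by
    rw [← Real.mul_rpow hm.le, ← e1]
    have : 1 + (-(1 / ((m : ℝ) + 1))) = (m : ℝ) / ((m : ℝ) + 1) := by
      field_simp
      ring
    rw [this]
    positivity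
  have e3 : ((m : ℝ) + 1) ^ (β - 1) = ((m : ℝ) + 1) ^ β / ((m : ℝ) + 1) := by
    rw [Real.rpow_sub hm, Real.rpow_one]
  have hp : 0 < ((m : ℝ) + 1) ^ β := Real.rpow_pos_of_pos hm _
  have := mul_le_mul_of_nonneg_left hb hp.le
  rw [e2, e3]
  calc _ ≤ ((m : ℝ) + 1) ^ β * (1 + β * (-(1 / ((m : ℝ) + 1)))) +
        β * (((m : ℝ) + 1) ^ β / ((m : ℝ) + 1)) := by linarith
    _ = ((m : ℝ) + 1) ^ β := by ring

variable {𝕜 : Type} [RCLike 𝕜] {H : Type} [NormedAddCommGroup H] [NormedSpace 𝕜 H]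
variable (S : Sys 𝕜 H)

/-- Pairing with a finitely supported family. -/
def gev (g : ℕ →₀ 𝕜) (h : H) : 𝕜 := ∑ n ∈ g.support, g n * S.a n h

lemma gev_eq (g : ℕ →₀ 𝕜) (h : H) (s : Finset ℕ) (hs : g.support ⊆ s) :
    ∑ n ∈ s, g n * S.a n h = gev S g h := by
  rw [gev]
  symm
  apply Finset.sum_subset hs
  intro n _ hn
  rw [Finsupp.notMem_support_iff.1 hn, zero_mul]

/-- The small constants. -/
def dl : ℝ := S.α / 4

lemma dl_pos : 0 < dl S := div_pos S.α0 (by norm_num)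

lemma dl_le : dl S ≤ 1 / 4 := by
  have := S.α1
  rw [dl]
  linarith

def kap : ℝ := dl S / S.U

lemma kap_pos : 0 < kap S := div_pos (dl_pos S) S.hU

/-- The admissible families. -/
def GG : Set (ℕ →₀ 𝕜) := {g | ∀ h, ‖gev S g h‖ ≤ kap S * ‖h‖}

lemma a_sum (s : Finset ℕ) (c : ℕ → 𝕜) (m : ℕ) :
    S.a m (∑ n ∈ s, c n • S.e n) = if m ∈ s then c m else 0 := by
  rw [map_sum]
  have : ∀ n ∈ s, S.a m (c n • S.e n) = if m = n then c n else 0 := by
    intro n _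
    rw [map_smul, S.biorth, smul_eq_mul, mul_ite, mul_one, mul_zero]
  rw [Finset.sum_congr rfl this, Finset.sum_ite_eq]

lemma gev_sum (g : ℕ →₀ 𝕜) (s : Finset ℕ) (c : ℕ → 𝕜) :
    gev S g (∑ n ∈ s, c n • S.e n) = ∑ n ∈ s, g n * c n := by
  rw [gev]
  simp only [a_sum, mul_ite, mul_zero]
  rw [Finset.sum_ite_mem]
  apply Finset.sum_subset Finset.inter_subset_right
  intro n hn hn'
  have : n ∉ g.support := fun h => hn' (Finset.mem_inter.2 ⟨h, hn⟩)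
  rw [Finsupp.notMem_support_iff.1 this, zero_mul]

lemma sgn_exists (z : 𝕜) : ∃ c : 𝕜, ‖c‖ ≤ 1 ∧ z * c = (‖z‖ : 𝕜) := by
  by_cases hz : z = 0
  · exact ⟨0, by simp, by simp [hz]⟩
  · have hz' : (‖z‖ : 𝕜) ≠ 0 := by simpa using hz
    refine ⟨(starRingEnd 𝕜) z / (‖z‖ : 𝕜), ?_, ?_⟩
    · rw [norm_div, RCLike.norm_conj, RCLike.norm_ofReal, abs_of_nonneg (norm_nonneg _)]
      exact div_self_le_one _
    · rw [mul_div_assoc', RCLike.mul_conj, sq, mul_div_assoc, div_self hz', mul_one]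

lemma sum_norm_le {g : ℕ →₀ 𝕜} (hg : g ∈ GG S) (s : Finset ℕ) :
    ∑ n ∈ s, ‖g n‖ ≤ dl S * (s.card : ℝ) ^ S.α := by
  choose c hc1 hc2 using fun n => sgn_exists (g n)
  have h := hg (∑ n ∈ s, c n • S.e n)
  rw [gev_sum] at h
  have h1 : ∑ n ∈ s, g n * c n = ((∑ n ∈ s, ‖g n‖ : ℝ) : 𝕜) := by
    rw [RCLike.ofReal_sum]
    exact Finset.sum_congr rfl fun n _ => hc2 n
  rw [h1, RCLike.norm_ofReal, abs_of_nonneg (Finset.sum_nonneg fun n _ => norm_nonneg _)] at h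
  have h2 := S.up s c (fun n _ => hc1 n)
  calc _ ≤ kap S * ‖∑ n ∈ s, c n • S.e n‖ := h
    _ ≤ kap S * (S.U * (s.card : ℝ) ^ S.α) := mul_le_mul_of_nonneg_left h2 (kap_pos S).le
    _ = dl S * (s.card : ℝ) ^ S.α := by
        rw [kap, ← mul_assoc, div_mul_cancel₀ _ S.hU.ne']

lemma norm_g_le {g : ℕ →₀ 𝕜} (hg : g ∈ GG S) (n : ℕ) : ‖g n‖ ≤ dl S := by
  have := sum_norm_le S hg {n}
  simpa using this

lemma card_split {m : ℕ} (hm : 0 < m) (α : ℝ) : (m : ℝ) = (m : ℝ) ^ α * (m : ℝ) ^ (1 - α) := by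
  rw [← Real.rpow_add (by exact_mod_cast hm)]
  norm_num

lemma count_le {g : ℕ →₀ 𝕜} (hg : g ∈ GG S) (s : Finset ℕ) (ρ : ℝ)
    (hs : ∀ n ∈ s, ρ ≤ ‖g n‖) : ρ * (s.card : ℝ) ^ (1 - S.α) ≤ dl S := by
  have h1 : (s.card : ℝ) * ρ ≤ ∑ n ∈ s, ‖g n‖ := by
    have := Finset.card_nsmul_le_sum s (fun n => ‖g n‖) ρ hs
    rwa [nsmul_eq_mul] at this
  have h2 := sum_norm_le S hg s
  rcases Nat.eq_zero_or_pos s.card with h0 | h0
  · rw [h0]
    have : (1 : ℝ) - S.α ≠ 0 := by linarith [S.α1]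
    rw [Nat.cast_zero, Real.zero_rpow this, mul_zero]
    exact (dl_pos S).le
  · have h4 : 0 < (s.card : ℝ) ^ S.α := Real.rpow_pos_of_pos (by exact_mod_cast h0) _
    have h6 : (ρ * (s.card : ℝ) ^ (1 - S.α)) * (s.card : ℝ) ^ S.α ≤
        dl S * (s.card : ℝ) ^ S.α := by
      calc (ρ * (s.card : ℝ) ^ (1 - S.α)) * (s.card : ℝ) ^ S.α
          = ((s.card : ℝ) ^ S.α * (s.card : ℝ) ^ (1 - S.α)) * ρ := by ring
        _ = s.card * ρ := by rw [← card_split h0]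
        _ ≤ _ := h1.trans h2
    exact le_of_mul_le_mul_right h6 h4

lemma cs_const (s : Finset ℕ) (w : ℕ → 𝕜) (ρ : ℝ) (hw : ∀ n ∈ s, ‖w n‖ ≤ ρ) (h : H)
    (hρ : 0 ≤ ρ) :
    ‖∑ n ∈ s, w n * S.a n h‖ ≤ ρ * (s.card : ℝ) ^ (1 - S.α) * S.V * ‖h‖ := by
  have h1 : ‖∑ n ∈ s, w n * S.a n h‖ ≤ ∑ n ∈ s, ρ * ‖S.a n h‖ := by
    refine (norm_sum_le _ _).trans (Finset.sum_le_sum fun n hn => ?_)
    rw [norm_mul]
    gcongr
    exact hw n hn
  rw [← Finset.mul_sum] at h1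
  have h2 := mul_le_mul_of_nonneg_left (S.dn s h) hρ
  calc _ ≤ _ := h1
    _ ≤ _ := h2
    _ = _ := by ring

lemma big_card (h : H) (τ : ℝ) (s : Finset ℕ) (hs : ∀ n ∈ s, τ ≤ ‖S.a n h‖) :
    (s.card : ℝ) ^ S.α * τ ≤ S.V * ‖h‖ := by
  have h1 : (s.card : ℝ) * τ ≤ ∑ n ∈ s, ‖S.a n h‖ := by
    have := Finset.card_nsmul_le_sum s (fun n => ‖S.a n h‖) τ hs
    rwa [nsmul_eq_mul] at this
  have h2 := S.dn s h
  rcases Nat.eq_zero_or_pos s.card with h0 | h0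
  · rw [h0]
    have : S.α ≠ 0 := S.α0.ne'
    rw [Nat.cast_zero, Real.zero_rpow this, zero_mul]
    exact mul_nonneg S.hV.le (norm_nonneg _)
  · have h4 : 0 < (s.card : ℝ) ^ (1 - S.α) := Real.rpow_pos_of_pos (by exact_mod_cast h0) _
    have h6 : ((s.card : ℝ) ^ S.α * τ) * (s.card : ℝ) ^ (1 - S.α) ≤
        (S.V * ‖h‖) * (s.card : ℝ) ^ (1 - S.α) := by
      calc ((s.card : ℝ) ^ S.α * τ) * (s.card : ℝ) ^ (1 - S.α)
          = ((s.card : ℝ) ^ S.α * (s.card : ℝ) ^ (1 - S.α)) * τ := by ring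
        _ = s.card * τ := by rw [← card_split h0]
        _ ≤ _ := h1.trans h2
        _ = _ := by ring
    exact le_of_mul_le_mul_right h6 h4

lemma big_finite (h : H) (τ : ℝ) (hτ : 0 < τ) : {n : ℕ | τ ≤ ‖S.a n h‖}.Finite := by
  by_contra hinf
  obtain ⟨M, hM⟩ := exists_nat_gt ((S.V * ‖h‖ / τ) ^ (1 / S.α))
  obtain ⟨t, ht, hc⟩ := Set.Infinite.exists_subset_card_eq hinf M
  have h1 := big_card S h τ t (fun n hn => ht hn)
  rw [hc, ← le_div_iff₀ hτ] at h1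
  have h0 : 0 ≤ S.V * ‖h‖ / τ := div_nonneg (mul_nonneg S.hV.le (norm_nonneg _)) hτ.le
  have h2 : ((M : ℝ) ^ S.α) ^ (1 / S.α) ≤ (S.V * ‖h‖ / τ) ^ (1 / S.α) :=
    Real.rpow_le_rpow (by positivity) h1 (div_nonneg zero_le_one S.α0.le)
  rw [← Real.rpow_mul (by positivity), mul_one_div_cancel S.α0.ne', Real.rpow_one] at h2
  linarith

/-- The constants of the greedy part. -/
def TC : ℝ := kap S * S.Q + 2 * (dl S * S.V)

lemma TC_nonneg : 0 ≤ TC S := by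
  have := kap_pos S
  have := dl_pos S
  have := S.hV
  have := S.hQ
  rw [TC]
  positivity

/-- The greedy part of an admissible family is bounded. -/
lemma greedy_part {g : ℕ →₀ 𝕜} (hg : g ∈ GG S) (ρ : ℝ) (hρ : 0 < ρ) (h : H) :
    ‖∑ n ∈ g.support.filter (fun n => ρ < ‖g n‖), g n * S.a n h‖ ≤ TC S * ‖h‖ := by
  set A := g.support.filter (fun n => ρ < ‖g n‖) with hA
  have hT := TC_nonneg S
  rcases Nat.eq_zero_or_pos A.card with h0 | h0
  · rw [Finset.card_eq_zero.1 h0, Finset.sum_empty, norm_zero]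
    positivity
  by_cases hh : h = 0
  · rw [hh]
    simp
  have hhn : 0 < ‖h‖ := norm_pos_iff.2 hh
  have hm : (0 : ℝ) < A.card := by exact_mod_cast h0
  have hma : 0 < (A.card : ℝ) ^ S.α := Real.rpow_pos_of_pos hm _
  set τ := S.V * ‖h‖ / (A.card : ℝ) ^ S.α with hτ
  have hτ0 : 0 < τ := div_pos (mul_pos S.hV hhn) hma
  have hfin := big_finite S h τ hτ0
  set B := hfin.toFinset with hB
  have hBm : ∀ n, n ∈ B ↔ τ ≤ ‖S.a n h‖ := by
    intro n
    rw [hB, Set.Finite.mem_toFinset, Set.mem_ofPred_eq]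
  have hBc : B.card ≤ A.card := by
    have h1 := big_card S h τ B (fun n hn => (hBm n).1 hn)
    rw [hτ, mul_div_assoc', div_le_iff₀ hma] at h1
    have h2 : (B.card : ℝ) ^ S.α ≤ (A.card : ℝ) ^ S.α := by
      have h3 : (S.V * ‖h‖) * (B.card : ℝ) ^ S.α ≤ (S.V * ‖h‖) * (A.card : ℝ) ^ S.α := by
        linarith
      exact le_of_mul_le_mul_left h3 (mul_pos S.hV hhn)
    rw [Real.rpow_le_rpow_iff (by positivity) (by positivity) S.α0] at h2
    exact_mod_cast h2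
  -- the three parts
  have p1 : ‖∑ n ∈ B, g n * S.a n h‖ ≤ kap S * S.Q * ‖h‖ := by
    rw [← gev_sum S g B (fun n => S.a n h)]
    refine (hg _).trans ?_
    have := S.qg h τ B hτ0 hBm
    calc _ ≤ kap S * (S.Q * ‖h‖) := mul_le_mul_of_nonneg_left this (kap_pos S).le
      _ = _ := by ring
  have hcA := count_le S hg A ρ (fun n hn => (Finset.mem_filter.1 hn).2.le)
  have p2 : ‖∑ n ∈ B \ A, g n * S.a n h‖ ≤ dl S * S.V * ‖h‖ := by
    refine (cs_const S (B \ A) (fun n => g n) ρ ?_ h hρ.le).trans ?_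
    · intro n hn
      have hn' := (Finset.mem_sdiff.1 hn).2
      by_cases hs : n ∈ g.support
      · by_contra hc
        exact hn' (Finset.mem_filter.2 ⟨hs, not_le.1 hc⟩)
      · rw [Finsupp.notMem_support_iff.1 hs, norm_zero]
        exact hρ.le
    · have h1 : ρ * ((B \ A).card : ℝ) ^ (1 - S.α) ≤ ρ * (A.card : ℝ) ^ (1 - S.α) := by
        apply mul_le_mul_of_nonneg_left _ hρ.le
        apply Real.rpow_le_rpow (by positivity) _ (by linarith [S.α1])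
        exact_mod_cast (Finset.card_le_card Finset.sdiff_subset).trans hBc
      have h2 := S.hV
      have h3 : ρ * ((B \ A).card : ℝ) ^ (1 - S.α) ≤ dl S := h1.trans hcA
      gcongr
  have p3 : ‖∑ n ∈ A \ B, g n * S.a n h‖ ≤ dl S * S.V * ‖h‖ := by
    have h1 : ‖∑ n ∈ A \ B, g n * S.a n h‖ ≤ ∑ n ∈ A \ B, ‖g n‖ * τ := by
      refine (norm_sum_le _ _).trans (Finset.sum_le_sum fun n hn => ?_)
      rw [norm_mul]
      have hn' := (Finset.mem_sdiff.1 hn).2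
      rw [hBm, not_le] at hn'
      gcongr
    rw [← Finset.sum_mul] at h1
    have h2 := sum_norm_le S hg (A \ B)
    have h3 : ((A \ B).card : ℝ) ^ S.α ≤ (A.card : ℝ) ^ S.α := by
      apply Real.rpow_le_rpow (by positivity) _ S.α0.le
      exact_mod_cast Finset.card_le_card Finset.sdiff_subset
    have h4 : ∑ n ∈ A \ B, ‖g n‖ ≤ dl S * (A.card : ℝ) ^ S.α :=
      h2.trans (mul_le_mul_of_nonneg_left h3 (dl_pos S).le)
    calc _ ≤ _ := h1
      _ ≤ (dl S * (A.card : ℝ) ^ S.α) * τ := mul_le_mul_of_nonneg_right h4 hτ0.le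
      _ = dl S * S.V * ‖h‖ := by
          rw [hτ]
          field_simp
  have hsplit : ∑ n ∈ A, g n * S.a n h =
      ∑ n ∈ B, g n * S.a n h - ∑ n ∈ B \ A, g n * S.a n h + ∑ n ∈ A \ B, g n * S.a n h := by
    have e1 := Finset.sum_inter_add_sum_sdiff A B (fun n => g n * S.a n h)
    have e2 := Finset.sum_inter_add_sum_sdiff B A (fun n => g n * S.a n h)
    rw [Finset.inter_comm] at e2
    rw [← e1, ← e2]
    ring
  rw [hsplit]
  refine (norm_add_le _ _).trans ?_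
  have := norm_sub_le (∑ n ∈ B, g n * S.a n h) (∑ n ∈ B \ A, g n * S.a n h)
  calc _ ≤ kap S * S.Q * ‖h‖ + dl S * S.V * ‖h‖ + dl S * S.V * ‖h‖ := by linarith
    _ = TC S * ‖h‖ := by rw [TC]; ring

/-- Truncation. -/
def TT (ρ : ℝ) (z : 𝕜) : 𝕜 := if ‖z‖ ≤ ρ then z else ((ρ / ‖z‖ : ℝ) : 𝕜) * z

lemma TT_of_le {ρ : ℝ} {z : 𝕜} (h : ‖z‖ ≤ ρ) : TT ρ z = z := if_pos h

lemma TT_norm_le {ρ : ℝ} (hρ : 0 ≤ ρ) (z : 𝕜) : ‖TT ρ z‖ ≤ ρ := by
  rw [TT]
  split_ifs with h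
  · exact h
  · have hz : 0 < ‖z‖ := lt_of_le_of_lt hρ (not_le.1 h)
    rw [norm_mul, RCLike.norm_ofReal, abs_of_nonneg (by positivity), div_mul_cancel₀ _ hz.ne']

lemma TT_diff_zero {σ ρ : ℝ} (hσρ : σ ≤ ρ) {z : 𝕜} (h : ‖z‖ ≤ σ) : TT ρ z - TT σ z = 0 := by
  rw [TT_of_le h, TT_of_le (h.trans hσρ), sub_self]

lemma TT_diff {σ ρ : ℝ} (hσ : 0 ≤ σ) (hσρ : σ ≤ ρ) (z : 𝕜) : ‖TT ρ z - TT σ z‖ ≤ ρ - σ := by
  by_cases h : ‖z‖ ≤ σ
  · rw [TT_diff_zero hσρ h, norm_zero]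
    linarith
  · have hz : 0 < ‖z‖ := lt_of_le_of_lt hσ (not_le.1 h)
    have h1 : TT σ z = ((σ / ‖z‖ : ℝ) : 𝕜) * z := if_neg h
    by_cases h2 : ‖z‖ ≤ ρ
    · rw [TT_of_le h2, h1]
      have h3 : z - ((σ / ‖z‖ : ℝ) : 𝕜) * z = ((1 - σ / ‖z‖ : ℝ) : 𝕜) * z := by
        push_cast; ring
      have h4 : σ / ‖z‖ ≤ 1 := by
        rw [div_le_one hz]; exact (not_le.1 h).le
      rw [h3, norm_mul, RCLike.norm_ofReal, abs_of_nonneg (by linarith), sub_mul, one_mul,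
        div_mul_cancel₀ _ hz.ne']
      linarith
    · have h3 : TT ρ z = ((ρ / ‖z‖ : ℝ) : 𝕜) * z := if_neg h2
      rw [h1, h3, ← sub_mul, ← RCLike.ofReal_sub, norm_mul, RCLike.norm_ofReal, ← sub_div,
        abs_of_nonneg (div_nonneg (by linarith) hz.le), div_mul_cancel₀ _ hz.ne']

lemma trunc_bound {g : ℕ →₀ 𝕜} (hg : g ∈ GG S) (ρ : ℝ) (hρ : 0 < ρ) (h : H) :
    ‖∑ n ∈ g.support, TT ρ (g n) * S.a n h‖ ≤ (kap S + TC S + dl S * S.V) * ‖h‖ := by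
  have h1 := greedy_part S hg ρ hρ h
  have h2 := hg h
  have h3 : ‖∑ n ∈ g.support.filter (fun n => ρ < ‖g n‖), TT ρ (g n) * S.a n h‖ ≤
      dl S * S.V * ‖h‖ := by
    refine (cs_const S _ (fun n => TT ρ (g n)) ρ (fun n _ => TT_norm_le hρ.le _) h hρ.le).trans ?_
    have h5 := count_le S hg (g.support.filter (fun n => ρ < ‖g n‖)) ρ
      (fun n hn => (Finset.mem_filter.1 hn).2.le)
    have := S.hV
    gcongr
  have h4 : ∑ n ∈ g.support, TT ρ (g n) * S.a n h = gev S g h -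
      ∑ n ∈ g.support.filter (fun n => ρ < ‖g n‖), g n * S.a n h +
      ∑ n ∈ g.support.filter (fun n => ρ < ‖g n‖), TT ρ (g n) * S.a n h := by
    rw [gev, ← Finset.sum_filter_add_sum_filter_not g.support (fun n => ρ < ‖g n‖),
      ← Finset.sum_filter_add_sum_filter_not g.support (fun n => ρ < ‖g n‖)
        (fun n => g n * S.a n h)]
    have : ∑ n ∈ g.support with ¬ ρ < ‖g n‖, TT ρ (g n) * S.a n h =
        ∑ n ∈ g.support with ¬ ρ < ‖g n‖, g n * S.a n h := by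
      apply Finset.sum_congr rfl
      intro n hn
      rw [TT_of_le (not_lt.1 (Finset.mem_filter.1 hn).2)]
    rw [this]
    ring
  rw [h4]
  have h5 := norm_add_le (gev S g h -
      ∑ n ∈ g.support.filter (fun n => ρ < ‖g n‖), g n * S.a n h)
      (∑ n ∈ g.support.filter (fun n => ρ < ‖g n‖), TT ρ (g n) * S.a n h)
  have h6 := norm_sub_le (gev S g h)
      (∑ n ∈ g.support.filter (fun n => ρ < ‖g n‖), g n * S.a n h)
  calc _ ≤ kap S * ‖h‖ + TC S * ‖h‖ + dl S * S.V * ‖h‖ := by linarith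
    _ = _ := by ring

/-- The weights. -/
def lam (m : ℕ) : ℝ := ((max m 1 : ℕ) : ℝ) ^ (S.α - 1)

lemma lam_pos (m : ℕ) : 0 < lam S m := by
  have : (0 : ℝ) < ((max m 1 : ℕ) : ℝ) := by
    have : 0 < max m 1 := by simp
    exact_mod_cast this
  exact Real.rpow_pos_of_pos this _

lemma lam_zero : lam S 0 = 1 := by
  simp [lam]

lemma lam_succ (m : ℕ) : lam S (m + 1) = ((m : ℝ) + 1) ^ (S.α - 1) := by
  rw [lam]
  have : max (m + 1) 1 = m + 1 := by simp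
  rw [this]
  push_cast
  rfl

lemma lam_mul_le (m : ℕ) : lam S m * (m : ℝ) ^ (1 - S.α) ≤ 1 := by
  cases m with
  | zero =>
    have : (1 : ℝ) - S.α ≠ 0 := by linarith [S.α1]
    rw [Nat.cast_zero, Real.zero_rpow this, mul_zero]
    exact zero_le_one
  | succ m =>
    rw [lam_succ]
    push_cast
    rw [← Real.rpow_add (by positivity)]
    have : S.α - 1 + (1 - S.α) = 0 := by ring
    rw [this, Real.rpow_zero]

lemma lam_anti (m : ℕ) : lam S (m + 1) ≤ lam S m := by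
  rw [lam, lam]
  have h : (0 : ℝ) < ((max m 1 : ℕ) : ℝ) := by
    have : 0 < max m 1 := by simp
    exact_mod_cast this
  apply Real.rpow_le_rpow_of_nonpos h _ (by linarith [S.α1])
  have : max m 1 ≤ max (m + 1) 1 := by omega
  exact_mod_cast this

lemma lam_key (m : ℕ) : (lam S m - lam S (m + 1)) * m +
    (lam S m - lam S (m + 1)) * (m + 1) * dl S + lam S m * dl S ≤ lam S (m + 1) := by
  rcases Nat.eq_zero_or_pos m with h0 | h0
  · subst h0
    have h2 : lam S (0 + 1) = 1 := by simp [lam]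
    rw [h2, lam_zero]
    have := dl_le S
    push_cast
    linarith
  · have hm : (0 : ℝ) < m := by exact_mod_cast h0
    have hm1 : (1 : ℝ) ≤ m := by exact_mod_cast h0
    have hmax : max m 1 = m := by omega
    have hα0 := S.α0
    have hα1 := S.α1
    have hinc := rpow_incr S.α hα0.le hα1.le m
    have e1 : (m : ℝ) ^ S.α = m * lam S m := by
      rw [lam, hmax, Real.rpow_sub hm, Real.rpow_one, mul_div_assoc', mul_div_cancel_left₀ _ hm.ne']
    have hmp : (0 : ℝ) < (m : ℝ) + 1 := by positivity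
    have e2 : ((m : ℝ) + 1) ^ S.α = (m + 1) * lam S (m + 1) := by
      rw [lam_succ, Real.rpow_sub hmp, Real.rpow_one, mul_div_assoc',
        mul_div_cancel_left₀ _ hmp.ne']
    rw [← lam_succ, e1, e2] at hinc
    have hL := lam_pos S m
    have hL' := lam_pos S (m + 1)
    have hanti := lam_anti S m
    generalize lam S m = L at *
    generalize lam S (m + 1) = L' at *
    have h2 : L ≤ 2 * L' := by
      have h3 : m * L ≤ m * (2 * L') := by nlinarith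
      exact le_of_mul_le_mul_left h3 hm
    have h4 : (L - L') * (m + 1) ≤ L := by nlinarith
    have h5 : (L - L') * m ≤ L' - S.α * L' := by nlinarith
    have hd := dl_pos S
    have h6 := mul_le_mul_of_nonneg_right h4 hd.le
    have h7 := mul_le_mul_of_nonneg_right h2 hd.le
    have h8 : 4 * dl S = S.α := by rw [dl]; ring
    have h9 : S.α * L' = 4 * dl S * L' := by rw [h8]
    nlinarith

end

end Pool.Agent.KS6_63.PA
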