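import Mathlib
import Pool.Agent.KS6_63.PA.Gen2

set_option autoImplicit false

open Filter Topology

namespace Pool.Agent.KS6_63.PA

noncomputable section

variable {𝕜 : Type} [RCLike 𝕜] {X : Type} [NormedAddCommGroup X] [NormedSpace 𝕜 X]

/-- Abel summation in the order of the weights. -/
lemma abel (v : ℕ → X) (M : ℝ) (hM : 0 ≤ M) :
    ∀ (k : ℕ) (A : Finset ℕ), A.card = k → ∀ (w : ℕ → ℝ) (W : ℝ), 0 ≤ W →
      (∀ n ∈ A, 0 ≤ w n) → (∀ n ∈ A, w n ≤ W) →
      (∀ u, 0 ≤ u → ‖∑ n ∈ A.filter (fun n => u < w n), v n‖ ≤ M) →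
      ‖∑ n ∈ A, ((w n : ℝ) : 𝕜) • v n‖ ≤ W * M := by
  intro k
  induction k with
  | zero =>
    intro A hA w W hW _ _ _
    rw [Finset.card_eq_zero.1 hA, Finset.sum_empty, norm_zero]
    positivity
  | succ k ih =>
    intro A hA w W hW h0 h1 h2
    have hne : A.Nonempty := Finset.card_pos.1 (by omega)
    obtain ⟨n0, hn0, hmin⟩ := Finset.exists_min_image A w hne
    have hw0 := h0 n0 hn0
    have hcard : (A.erase n0).card = k := by
      rw [Finset.card_erase_of_mem hn0]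
      omega
    have hI := ih (A.erase n0) hcard (fun n => w n - w n0) (W - w n0)
      (by linarith [h1 n0 hn0])
      (fun n hn => by linarith [hmin n (Finset.mem_of_mem_erase hn)])
      (fun n hn => by linarith [h1 n (Finset.mem_of_mem_erase hn)])
      (by
        intro u hu
        have e : (A.erase n0).filter (fun n => u < w n - w n0) =
            A.filter (fun n => u + w n0 < w n) := by
          ext n
          simp only [Finset.mem_filter, Finset.mem_erase]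
          constructor
          · rintro ⟨⟨_, hn⟩, h⟩
            exact ⟨hn, by linarith⟩
          · rintro ⟨hn, h⟩
            refine ⟨⟨?_, hn⟩, by linarith⟩
            rintro rfl
            linarith
        rw [e]
        exact h2 _ (by linarith))
    have hS : ‖((w n0 : ℝ) : 𝕜) • ∑ n ∈ A, v n‖ ≤ w n0 * M := by
      rw [norm_smul, RCLike.norm_ofReal, abs_of_nonneg hw0]
      rcases hw0.eq_or_lt with hz | hz
      · rw [← hz, zero_mul, zero_mul]
      · have e : A.filter (fun n => (0 : ℝ) < w n) = A := by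
          apply Finset.filter_true_of_mem
          intro n hn
          exact lt_of_lt_of_le hz (hmin n hn)
        have := h2 0 le_rfl
        rw [e] at this
        gcongr
    have hsplit : ∑ n ∈ A, ((w n : ℝ) : 𝕜) • v n = ((w n0 : ℝ) : 𝕜) • ∑ n ∈ A, v n +
        ∑ n ∈ A.erase n0, (((w n - w n0 : ℝ)) : 𝕜) • v n := by
      have e1 : ∑ n ∈ A.erase n0, (((w n - w n0 : ℝ)) : 𝕜) • v n =
          ∑ n ∈ A, (((w n - w n0 : ℝ)) : 𝕜) • v n := by
        rw [← Finset.add_sum_erase A _ hn0]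
        simp
      rw [e1, Finset.smul_sum, ← Finset.sum_add_distrib]
      apply Finset.sum_congr rfl
      intro n _
      rw [← add_smul]
      congr 1
      push_cast
      ring
    rw [hsplit]
    refine (norm_add_le _ _).trans ?_
    calc _ ≤ w n0 * M + (W - w n0) * M := add_le_add hS hI
      _ = W * M := by ring

lemma norm_I_le : ‖(RCLike.I : 𝕜)‖ ≤ 1 := by
  by_cases h : (RCLike.I : 𝕜) = 0
  · rw [h, norm_zero]
    exact zero_le_one
  · rw [RCLike.norm_I_of_ne_zero h]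

lemma four_aux (v : ℕ → X) (B : Finset ℕ) (M : ℝ) (hM : ∀ B' ⊆ B, ‖∑ n ∈ B', v n‖ ≤ M)
    (p : ℕ → ℝ) (hp0 : ∀ n ∈ B, 0 ≤ p n) (hp1 : ∀ n ∈ B, p n ≤ 1) :
    ‖∑ n ∈ B, ((p n : ℝ) : 𝕜) • v n‖ ≤ M := by
  have hM0 : 0 ≤ M := (norm_nonneg _).trans (hM ∅ (Finset.empty_subset _))
  have := abel (𝕜 := 𝕜) v M hM0 _ B rfl p 1 zero_le_one hp0 hp1
    (fun u _ => hM _ (Finset.filter_subset _ _))
  rwa [one_mul] at this

/-- If all partial sums over subsets are bounded by `M`, then sums with weights of modulus at most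
one are bounded by `4 M`. -/
lemma four (v : ℕ → X) (B : Finset ℕ) (M : ℝ) (hM : ∀ B' ⊆ B, ‖∑ n ∈ B', v n‖ ≤ M)
    (w : ℕ → 𝕜) (hw : ∀ n ∈ B, ‖w n‖ ≤ 1) : ‖∑ n ∈ B, w n • v n‖ ≤ 4 * M := by
  have hre : ∀ n ∈ B, |RCLike.re (w n)| ≤ 1 := fun n hn => (RCLike.abs_re_le_norm _).trans (hw n hn)
  have him : ∀ n ∈ B, |RCLike.im (w n)| ≤ 1 := fun n hn => (RCLike.abs_im_le_norm _).trans (hw n hn)
  have k1 := four_aux (𝕜 := 𝕜) v B M hM (fun n => max (RCLike.re (w n)) 0)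
    (fun n _ => le_max_right _ _) (fun n hn => max_le (abs_le.1 (hre n hn)).2 zero_le_one)
  have k2 := four_aux (𝕜 := 𝕜) v B M hM (fun n => max (-RCLike.re (w n)) 0)
    (fun n _ => le_max_right _ _)
    (fun n hn => max_le (by linarith [(abs_le.1 (hre n hn)).1]) zero_le_one)
  have k3 := four_aux (𝕜 := 𝕜) v B M hM (fun n => max (RCLike.im (w n)) 0)
    (fun n _ => le_max_right _ _) (fun n hn => max_le (abs_le.1 (him n hn)).2 zero_le_one)
  have k4 := four_aux (𝕜 := 𝕜) v B M hM (fun n => max (-RCLike.im (w n)) 0)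
    (fun n _ => le_max_right _ _)
    (fun n hn => max_le (by linarith [(abs_le.1 (him n hn)).1]) zero_le_one)
  have hsp : ∀ r : ℝ, r = max r 0 - max (-r) 0 := by
    intro r
    rcases le_total r 0 with h | h
    · rw [max_eq_right h, max_eq_left (by linarith)]
      ring
    · rw [max_eq_left h, max_eq_right (by linarith)]
      ring
  have hsplit : ∑ n ∈ B, w n • v n =
      (∑ n ∈ B, ((max (RCLike.re (w n)) 0 : ℝ) : 𝕜) • v n -
        ∑ n ∈ B, ((max (-RCLike.re (w n)) 0 : ℝ) : 𝕜) • v n) +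
      (RCLike.I : 𝕜) • (∑ n ∈ B, ((max (RCLike.im (w n)) 0 : ℝ) : 𝕜) • v n -
        ∑ n ∈ B, ((max (-RCLike.im (w n)) 0 : ℝ) : 𝕜) • v n) := by
    rw [← Finset.sum_sub_distrib, ← Finset.sum_sub_distrib, Finset.smul_sum,
      ← Finset.sum_add_distrib]
    apply Finset.sum_congr rfl
    intro n _
    rw [← sub_smul, ← sub_smul, smul_smul, ← add_smul, ← RCLike.ofReal_sub, ← RCLike.ofReal_sub,
      ← hsp, ← hsp, mul_comm, RCLike.re_add_im]
  rw [hsplit]
  have hI : ‖(RCLike.I : 𝕜) • (∑ n ∈ B, ((max (RCLike.im (w n)) 0 : ℝ) : 𝕜) • v n -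
        ∑ n ∈ B, ((max (-RCLike.im (w n)) 0 : ℝ) : 𝕜) • v n)‖ ≤ 2 * M := by
    rw [norm_smul]
    have h1 := norm_sub_le (∑ n ∈ B, ((max (RCLike.im (w n)) 0 : ℝ) : 𝕜) • v n)
      (∑ n ∈ B, ((max (-RCLike.im (w n)) 0 : ℝ) : 𝕜) • v n)
    calc _ ≤ 1 * ‖∑ n ∈ B, ((max (RCLike.im (w n)) 0 : ℝ) : 𝕜) • v n -
        ∑ n ∈ B, ((max (-RCLike.im (w n)) 0 : ℝ) : 𝕜) • v n‖ :=
          mul_le_mul_of_nonneg_right norm_I_le (norm_nonneg _)
      _ ≤ 2 * M := by linarith
  have hR := norm_sub_le (∑ n ∈ B, ((max (RCLike.re (w n)) 0 : ℝ) : 𝕜) • v n)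
      (∑ n ∈ B, ((max (-RCLike.re (w n)) 0 : ℝ) : 𝕜) • v n)
  refine (norm_add_le _ _).trans ?_
  linarith

variable {x : ℕ → X}

lemma fin_exp (B : Finset ℕ) (c : ℕ → 𝕜) :
    Tendsto (fun m => ∑ i ∈ Finset.range m, (if i ∈ B then c i else 0) • x i) atTop
      (𝓝 (∑ i ∈ B, c i • x i)) := by
  apply tendsto_const_nhds.congr'
  filter_upwards [eventually_ge_atTop (B.sup id + 1)] with m hm
  have hsub : B ⊆ Finset.range m := by
    intro i hi
    rw [Finset.mem_range]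
    have : id i ≤ B.sup id := Finset.le_sup hi
    simp only [id] at this
    omega
  symm
  calc ∑ i ∈ Finset.range m, (if i ∈ B then c i else 0) • x i
      = ∑ i ∈ Finset.range m, if i ∈ B then c i • x i else 0 := by
        apply Finset.sum_congr rfl
        intro i _
        split_ifs <;> simp
    _ = ∑ i ∈ B, c i • x i := by
        rw [Finset.sum_ite_mem, Finset.inter_eq_right.2 hsub]

/-- Unconditionality for constant coefficients. -/
lemma ucc {K : ℝ} (hq : ∀ (v : X) (a : ℕ → 𝕜),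
      Tendsto (fun m => ∑ i ∈ Finset.range m, a i • x i) atTop (𝓝 v) → ∀ A : Finset ℕ,
      (∀ n ∈ A, ∀ k, k ∉ A → ‖a k‖ ≤ ‖a n‖) → ‖∑ n ∈ A, a n • x n‖ ≤ K * ‖v‖)
    (B : Finset ℕ) (ε : ℕ → 𝕜) (hε : ∀ n ∈ B, ‖ε n‖ = 1) (w : ℕ → 𝕜) (hw : ∀ n ∈ B, ‖w n‖ ≤ 1) :
    ‖∑ n ∈ B, w n • x n‖ ≤ 4 * (K * ‖∑ n ∈ B, ε n • x n‖) := by
  have h1 : ∀ B' ⊆ B, ‖∑ n ∈ B', ε n • x n‖ ≤ K * ‖∑ n ∈ B, ε n • x n‖ := by
    intro B' hB'
    have h := hq _ _ (fin_exp (x := x) B ε) B' (by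
      intro n hn k _
      rw [if_pos (hB' hn), hε n (hB' hn)]
      split_ifs with hk
      · rw [hε k hk]
      · rw [norm_zero]
        exact zero_le_one)
    refine le_trans (le_of_eq ?_) h
    congr 1
    apply Finset.sum_congr rfl
    intro n hn
    rw [if_pos (hB' hn)]
  have h2 := four (𝕜 := 𝕜) (fun n => ε n • x n) B _ h1 (fun n => w n * (starRingEnd 𝕜) (ε n)) (by
    intro n hn
    rw [norm_mul, RCLike.norm_conj, hε n hn, mul_one]
    exact hw n hn)
  refine le_trans (le_of_eq ?_) h2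
  congr 1
  apply Finset.sum_congr rfl
  intro n hn
  rw [smul_smul, mul_assoc, RCLike.conj_mul, hε n hn]
  simp

lemma coef_zero {c : ℝ} (hc : 0 < c) (hx : ∀ n, c ≤ ‖x n‖) {v : X} {a : ℕ → 𝕜}
    (h : Tendsto (fun m => ∑ i ∈ Finset.range m, a i • x i) atTop (𝓝 v)) :
    Tendsto (fun n => ‖a n‖) atTop (𝓝 0) := by
  have h1 := (h.comp (tendsto_add_atTop_nat 1)).sub h
  rw [sub_self] at h1
  have h2 := h1.norm.const_mul c⁻¹
  rw [norm_zero, mul_zero] at h2
  refine squeeze_zero (fun _ => norm_nonneg _) (fun n => ?_) h2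
  simp only [Function.comp_apply, Finset.sum_range_succ, add_sub_cancel_left]
  rw [norm_smul, le_inv_mul_iff₀ hc, mul_comm]
  exact mul_le_mul_of_nonneg_left (hx n) (norm_nonneg _)

lemma thr_finite {a : ℕ → 𝕜} (h : Tendsto (fun n => ‖a n‖) atTop (𝓝 0)) {τ : ℝ} (hτ : 0 < τ) :
    {n : ℕ | τ ≤ ‖a n‖}.Finite := by
  rw [← Nat.cofinite_eq_atTop] at h
  have hev := h.eventually (gt_mem_nhds hτ)
  rw [Filter.eventually_cofinite] at hev
  apply hev.subset
  intro n hn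
  exact not_lt.2 hn

/-- Weak type estimate. -/
lemma weak {K : ℝ} (hK : 0 ≤ K) (hq : ∀ (v : X) (a : ℕ → 𝕜),
      Tendsto (fun m => ∑ i ∈ Finset.range m, a i • x i) atTop (𝓝 v) → ∀ A : Finset ℕ,
      (∀ n ∈ A, ∀ k, k ∉ A → ‖a k‖ ≤ ‖a n‖) → ‖∑ n ∈ A, a n • x n‖ ≤ K * ‖v‖)
    {v : X} {a : ℕ → 𝕜} (h : Tendsto (fun m => ∑ i ∈ Finset.range m, a i • x i) atTop (𝓝 v))
    {τ : ℝ} (hτ : 0 < τ) (B : Finset ℕ) (hB : ∀ n, n ∈ B ↔ τ ≤ ‖a n‖) :
    τ * ‖∑ n ∈ B, x n‖ ≤ 8 * K ^ 2 * ‖v‖ := by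
  have hpos : ∀ n ∈ B, 0 < ‖a n‖ := fun n hn => lt_of_lt_of_le hτ ((hB n).1 hn)
  have hgB := hq v a h B (fun n hn k hk => by
    rw [hB] at hn hk
    linarith [not_le.1 hk])
  have h1 := abel (𝕜 := 𝕜) (fun n => a n • x n) (2 * K * ‖v‖) (by positivity) _ B rfl
    (fun n => τ / ‖a n‖) 1 zero_le_one (fun n _ => by positivity)
    (fun n hn => by
      rw [div_le_one (hpos n hn)]
      exact (hB n).1 hn)
    (by
      intro u hu
      have hg2 := hq v a h (B.filter (fun n => ¬ u < τ / ‖a n‖)) (by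
        intro n hn k hk
        rw [Finset.mem_filter, not_lt] at hn hk
        by_cases hkB : k ∈ B
        · have h3 : u < τ / ‖a k‖ := by
            by_contra hcon
            exact hk ⟨hkB, not_lt.1 hcon⟩
          have h4 : τ / ‖a n‖ < τ / ‖a k‖ := lt_of_le_of_lt hn.2 h3
          rw [div_lt_div_iff_of_pos_left hτ (hpos n hn.1) (hpos k hkB)] at h4
          exact h4.le
        · rw [hB, not_le] at hkB
          have := (hB n).1 hn.1
          linarith)
      have e := Finset.sum_filter_add_sum_filter_not B (fun n => u < τ / ‖a n‖)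
        (fun n => a n • x n)
      have e2 : ∑ n ∈ B.filter (fun n => u < τ / ‖a n‖), a n • x n =
          ∑ n ∈ B, a n • x n - ∑ n ∈ B.filter (fun n => ¬ u < τ / ‖a n‖), a n • x n :=
        eq_sub_of_add_eq e
      rw [e2]
      refine (norm_sub_le _ _).trans ?_
      linarith)
  -- the signs
  set ε : ℕ → 𝕜 := fun n => ((‖a n‖⁻¹ : ℝ) : 𝕜) * a n with hεd
  have hε : ∀ n ∈ B, ‖ε n‖ = 1 := by
    intro n hn
    rw [hεd]
    simp only
    rw [norm_mul, RCLike.norm_ofReal, abs_of_pos (inv_pos.2 (hpos n hn)),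
      inv_mul_cancel₀ (hpos n hn).ne']
  have e3 : ∑ n ∈ B, (((τ / ‖a n‖ : ℝ)) : 𝕜) • (a n • x n) = (τ : 𝕜) • ∑ n ∈ B, ε n • x n := by
    rw [Finset.smul_sum]
    apply Finset.sum_congr rfl
    intro n _
    rw [hεd, smul_smul, smul_smul]
    congr 1
    push_cast
    ring
  rw [e3, norm_smul, RCLike.norm_ofReal, abs_of_pos hτ, one_mul] at h1
  have h2 := ucc hq B ε hε (fun _ => 1) (fun n _ => by simp)
  simp only [one_smul] at h2
  have h3 := mul_le_mul_of_nonneg_left h2 hτ.le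
  calc _ ≤ _ := h3
    _ = 4 * K * (τ * ‖∑ n ∈ B, ε n • x n‖) := by ring
    _ ≤ 4 * K * (2 * K * ‖v‖) := by gcongr
    _ = _ := by ring

/-- From the weak type estimate to sums of coefficients. -/
lemma dn_aux (a : ℕ → 𝕜) (α W : ℝ) (hα0 : 0 < α) (hα1 : α < 1) (hW : 0 ≤ W)
    (hw : ∀ (s : Finset ℕ) (τ : ℝ), 0 < τ → (∀ n ∈ s, τ ≤ ‖a n‖) → τ * (s.card : ℝ) ^ α ≤ W) :
    ∀ (k : ℕ) (s : Finset ℕ), s.card = k →
      ∑ n ∈ s, ‖a n‖ ≤ W / (1 - α) * (s.card : ℝ) ^ (1 - α) := by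
  have hβ : 0 < 1 - α := by linarith
  have hR : 0 ≤ W / (1 - α) := div_nonneg hW hβ.le
  intro k
  induction k with
  | zero =>
    intro s hs
    rw [Finset.card_eq_zero.1 hs]
    simp
    positivity
  | succ k ih =>
    intro s hs
    have hne : s.Nonempty := Finset.card_pos.1 (by omega)
    obtain ⟨n0, hn0, hmin⟩ := Finset.exists_min_image s (fun n => ‖a n‖) hne
    have hcard : (s.erase n0).card = k := by
      rw [Finset.card_erase_of_mem hn0]
      omega
    have hI := ih _ hcard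
    rw [hcard] at hI
    have hinc := rpow_incr (1 - α) hβ.le (by linarith) k
    rw [hs, ← Finset.add_sum_erase s _ hn0]
    push_cast
    have hk1 : (0 : ℝ) < (k : ℝ) + 1 := by positivity
    have hτ : ‖a n0‖ ≤ W * ((k : ℝ) + 1) ^ (1 - α - 1) := by
      rcases (norm_nonneg (a n0)).eq_or_lt with hz | hz
      · rw [← hz]
        positivity
      · have h1 := hw s ‖a n0‖ hz hmin
        rw [hs] at h1
        push_cast at h1
        have e : 1 - α - 1 = -α := by ring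
        have hp := Real.rpow_pos_of_pos hk1 α
        rw [e, Real.rpow_neg hk1.le, ← div_eq_mul_inv, le_div_iff₀ hp]
        exact h1
    have h5 : W / (1 - α) * ((1 - α) * ((k : ℝ) + 1) ^ (1 - α - 1)) =
        W * ((k : ℝ) + 1) ^ (1 - α - 1) := by
      field_simp
    have h6 := mul_le_mul_of_nonneg_left hinc hR
    rw [mul_add, h5] at h6
    linarith

section construct

variable (hb : ∀ v : X, ∃! a : ℕ → 𝕜,
  Tendsto (fun m => ∑ i ∈ Finset.range m, a i • x i) atTop (𝓝 v))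

def coef (v : X) : ℕ → 𝕜 := (hb v).choose

lemma coef_spec (v : X) :
    Tendsto (fun m => ∑ i ∈ Finset.range m, coef hb v i • x i) atTop (𝓝 v) :=
  (hb v).choose_spec.1

lemma coef_unique {v : X} {a : ℕ → 𝕜}
    (h : Tendsto (fun m => ∑ i ∈ Finset.range m, a i • x i) atTop (𝓝 v)) : a = coef hb v :=
  (hb v).unique h (coef_spec hb v)

/-- Coordinates as linear maps. -/
def coefL (n : ℕ) : X →ₗ[𝕜] 𝕜 where
  toFun v := coef hb v n
  map_add' v w := by
    have h : (fun i => coef hb v i + coef hb w i) = coef hb (v + w) := by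
      apply coef_unique
      refine ((coef_spec hb v).add (coef_spec hb w)).congr fun m => ?_
      rw [← Finset.sum_add_distrib]
      exact Finset.sum_congr rfl fun i _ => (add_smul _ _ _).symm
    exact (congrFun h n).symm
  map_smul' c v := by
    have h : (fun i => c * coef hb v i) = coef hb (c • v) := by
      apply coef_unique
      refine ((coef_spec hb v).const_smul c).congr fun m => ?_
      rw [Finset.smul_sum]
      exact Finset.sum_congr rfl fun i _ => (mul_smul _ _ _).symm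
    exact (congrFun h n).symm

variable {K c : ℝ}

lemma coef_bound (hc : 0 < c) (hx : ∀ n, c ≤ ‖x n‖) (hK : 0 ≤ K) (hq : ∀ (v : X) (a : ℕ → 𝕜),
      Tendsto (fun m => ∑ i ∈ Finset.range m, a i • x i) atTop (𝓝 v) → ∀ A : Finset ℕ,
      (∀ n ∈ A, ∀ k, k ∉ A → ‖a k‖ ≤ ‖a n‖) → ‖∑ n ∈ A, a n • x n‖ ≤ K * ‖v‖)
    (v : X) (n : ℕ) : ‖coef hb v n‖ ≤ K / c * ‖v‖ := by
  rcases (norm_nonneg (coef hb v n)).eq_or_lt with hz | hz
  · rw [← hz]
    positivity
  have hfin := thr_finite (coef_zero hc hx (coef_spec hb v)) hz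
  obtain ⟨m, hm, hmax⟩ := Finset.exists_max_image hfin.toFinset (fun k => ‖coef hb v k‖)
    ⟨n, by
      rw [Set.Finite.mem_toFinset]
      show ‖coef hb v n‖ ≤ ‖coef hb v n‖
      exact le_rfl⟩
  rw [Set.Finite.mem_toFinset] at hm
  have hm' : ‖coef hb v n‖ ≤ ‖coef hb v m‖ := hm
  have hall : ∀ k, ‖coef hb v k‖ ≤ ‖coef hb v m‖ := by
    intro k
    by_cases hk : ‖coef hb v n‖ ≤ ‖coef hb v k‖
    · exact hmax k (by rw [Set.Finite.mem_toFinset]; exact hk)
    · exact (not_le.1 hk).le.trans hm'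
  have h1 := hq v _ (coef_spec hb v) {m} (by
    intro n' hn' k _
    rw [Finset.mem_singleton.1 hn']
    exact hall k)
  rw [Finset.sum_singleton, norm_smul] at h1
  have h2 : ‖coef hb v m‖ * c ≤ K * ‖v‖ :=
    (mul_le_mul_of_nonneg_left (hx m) (norm_nonneg _)).trans h1
  calc _ ≤ _ := hm'
    _ ≤ K * ‖v‖ / c := by rwa [le_div_iff₀ hc]
    _ = _ := by ring

end construct

/-- A quasi-greedy Schauder basis with fundamental function of power type gives a system. -/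
theorem exists_sys [CompleteSpace X] (hb : ∀ v : X, ∃! a : ℕ → 𝕜,
      Tendsto (fun m => ∑ i ∈ Finset.range m, a i • x i) atTop (𝓝 v))
    {K c C α : ℝ} (hα0 : 0 < α) (hα1 : α < 1) (hc : 0 < c)
    (hlow : ∀ A : Finset ℕ, c * (A.card : ℝ) ^ α ≤ ‖∑ n ∈ A, x n‖)
    (hup : ∀ A : Finset ℕ, ‖∑ n ∈ A, x n‖ ≤ C * (A.card : ℝ) ^ α)
    (hq : ∀ (v : X) (a : ℕ → 𝕜),
      Tendsto (fun m => ∑ i ∈ Finset.range m, a i • x i) atTop (𝓝 v) → ∀ A : Finset ℕ,
      (∀ n ∈ A, ∀ k, k ∉ A → ‖a k‖ ≤ ‖a n‖) → ‖∑ n ∈ A, a n • x n‖ ≤ K * ‖v‖) :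
    ∃ S : Sys 𝕜 X, S.e = x ∧ ∀ v n, S.a n v = coef hb v n := by
  have hx : ∀ n, c ≤ ‖x n‖ := by
    intro n
    have := hlow {n}
    simpa using this
  have hxC : ∀ n, ‖x n‖ ≤ C := by
    intro n
    have := hup {n}
    simpa using this
  have hC : 0 < C := hc.trans_le ((hx 0).trans (hxC 0))
  -- enlarge the constant
  obtain ⟨K', hK', hq'⟩ : ∃ K' : ℝ, 0 < K' ∧ ∀ (v : X) (a : ℕ → 𝕜),
      Tendsto (fun m => ∑ i ∈ Finset.range m, a i • x i) atTop (𝓝 v) → ∀ A : Finset ℕ,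
      (∀ n ∈ A, ∀ k, k ∉ A → ‖a k‖ ≤ ‖a n‖) → ‖∑ n ∈ A, a n • x n‖ ≤ K' * ‖v‖ :=
    ⟨max K 1, lt_max_of_lt_right one_pos, fun v a h A hA => (hq v a h A hA).trans
      (mul_le_mul_of_nonneg_right (le_max_left _ _) (norm_nonneg _))⟩
  clear hq
  have hbd := coef_bound hb hc hx hK'.le hq'
  let f : ℕ → (X →L[𝕜] 𝕜) := fun n => (coefL hb n).mkContinuous (K' / c) (fun v => hbd v n)
  have hf : ∀ n v, f n v = coef hb v n := fun n v => rfl
  -- uniform bound of the partial sums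
  set T : ℕ → (X →L[𝕜] X) := fun n => ∑ i ∈ Finset.range n, (f i).smulRight (x i) with hT
  have hTy : ∀ n y, T n y = ∑ i ∈ Finset.range n, f i y • x i := by
    intro n y
    simp only [hT]
    rw [sum_apply]
    rfl
  obtain ⟨K1, hK1⟩ := banach_steinhaus (g := T) (fun y => by
    obtain ⟨b, hb'⟩ := (coef_spec hb y).norm.bddAbove_range
    refine ⟨b, fun n => ?_⟩
    rw [hTy]
    exact hb' ⟨n, rfl⟩)
  have hproj : ∀ n y, ‖∑ i ∈ Finset.range n, f i y • x i‖ ≤ max K1 1 * ‖y‖ := by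
    intro n y
    rw [← hTy]
    exact ((T n).le_of_opNorm_le (hK1 n) y).trans
      (mul_le_mul_of_nonneg_right (le_max_left _ _) (norm_nonneg _))
  have hwk : ∀ (v : X) (s : Finset ℕ) (τ : ℝ), 0 < τ → (∀ n ∈ s, τ ≤ ‖coef hb v n‖) →
      τ * (s.card : ℝ) ^ α ≤ 8 * K' ^ 2 / c * ‖v‖ := by
    intro v s τ hτ hs
    have hfin := thr_finite (coef_zero hc hx (coef_spec hb v)) hτ
    have h1 := weak hK'.le hq' (coef_spec hb v) hτ hfin.toFinset
      (fun n => by rw [Set.Finite.mem_toFinset]; rfl)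
    have h2 := hlow hfin.toFinset
    have h3 : (s.card : ℝ) ^ α ≤ (hfin.toFinset.card : ℝ) ^ α := by
      apply Real.rpow_le_rpow (by positivity) _ hα0.le
      exact_mod_cast Finset.card_le_card (fun n hn => by
        rw [Set.Finite.mem_toFinset]; exact hs n hn)
    have h4 : c * (τ * (s.card : ℝ) ^ α) ≤ 8 * K' ^ 2 * ‖v‖ := by
      calc c * (τ * (s.card : ℝ) ^ α) = τ * (c * (s.card : ℝ) ^ α) := by ring
        _ ≤ τ * (c * (hfin.toFinset.card : ℝ) ^ α) := by gcongr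
        _ ≤ τ * ‖∑ n ∈ hfin.toFinset, x n‖ := by gcongr
        _ ≤ _ := h1
    calc _ ≤ 8 * K' ^ 2 * ‖v‖ / c := by
          rw [le_div_iff₀ hc]
          linarith
      _ = _ := by ring
  refine ⟨{ e := x, a := f, α := α, α0 := hα0, α1 := hα1, P := max K1 1, U := 4 * C,
            V := 8 * K' ^ 2 / c / (1 - α), Q := K', hP := lt_max_of_lt_right one_pos,
            hU := by positivity, hV := div_pos (by positivity) (by linarith), hQ := hK'.le,
            biorth := ?_, up := ?_, dn := ?_, qg := ?_, proj := hproj, conv := ?_ }, rfl,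
            fun v n => rfl⟩
  · intro m n
    rw [hf]
    have h := fin_exp (𝕜 := 𝕜) (x := x) {n} (fun _ => (1 : 𝕜))
    have h2 := coef_unique hb h
    rw [Finset.sum_singleton, one_smul] at h2
    rw [← h2]
    simp
  · intro s w hw
    refine (four (𝕜 := 𝕜) x s (C * (s.card : ℝ) ^ α) ?_ w hw).trans (le_of_eq (by ring))
    intro B' hB'
    refine (hup B').trans ?_
    have h3 : (B'.card : ℝ) ^ α ≤ (s.card : ℝ) ^ α := by
      apply Real.rpow_le_rpow (by positivity) _ hα0.le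
      exact_mod_cast Finset.card_le_card hB'
    exact mul_le_mul_of_nonneg_left h3 hC.le
  · intro s v
    have h := dn_aux (coef hb v) α (8 * K' ^ 2 / c * ‖v‖) hα0 hα1 (by positivity)
      (hwk v) _ s rfl
    refine h.trans (le_of_eq ?_)
    ring
  · intro v τ B hτ hB
    have hB' : ∀ n, n ∈ B ↔ τ ≤ ‖coef hb v n‖ := hB
    exact hq' v _ (coef_spec hb v) B (fun n hn k hk => by
      rw [hB'] at hn hk
      linarith [not_le.1 hk])
  · intro v
    exact coef_spec hb v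

end

end Pool.Agent.KS6_63.PA
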