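import Mathlib
import Pool.Agent.KS6_63.PA.Build

set_option autoImplicit false

open Filter Topology

namespace Pool.Agent.KS6_63.PA

noncomputable section

variable {𝕜 : Type} [RCLike 𝕜] {X : Type} [NormedAddCommGroup X] [NormedSpace 𝕜 X] {x : ℕ → X}

/-- Under Property (A) the vectors of the basis have the same norm. -/
lemma conv_norm (N : Seminorm 𝕜 X)
    (hA : ∀ (z w : X) (a b : ℕ → 𝕜),
      Tendsto (fun m => ∑ i ∈ Finset.range m, a i • x i) atTop (𝓝 z) →
      Tendsto (fun m => ∑ i ∈ Finset.range m, b i • x i) atTop (𝓝 w) →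
      (∃ π : Equiv.Perm ℕ, (∀ n, ‖b (π n)‖ = ‖a n‖) ∧
        ∀ k, 0 < ‖a k‖ → ‖a k‖ < ⨆ n, ‖a n‖ → π k = k ∧ b k = a k) → N z = N w) (n : ℕ) :
    N (x 0) = N (x n) := by
  have h0 := fin_exp (x := x) {0} (fun _ => (1 : 𝕜))
  have hn := fin_exp (x := x) {n} (fun _ => (1 : 𝕜))
  rw [Finset.sum_singleton, one_smul] at h0 hn
  refine hA _ _ _ _ h0 hn ⟨Equiv.swap 0 n, ?_, ?_⟩
  · intro k
    have e : (Equiv.swap 0 n k ∈ ({n} : Finset ℕ)) ↔ (k ∈ ({0} : Finset ℕ)) := by
      rw [Finset.mem_singleton, Finset.mem_singleton]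
      constructor
      · intro h
        rw [← Equiv.swap_apply_left 0 n] at h
        exact (Equiv.swap 0 n).injective h
      · rintro rfl
        exact Equiv.swap_apply_left 0 n
    by_cases hk : k ∈ ({0} : Finset ℕ)
    · rw [if_pos hk, if_pos (e.2 hk)]
    · rw [if_neg hk, if_neg (fun h => hk (e.1 h))]
  · intro k hk hlt
    exfalso
    have hk0 : k ∈ ({0} : Finset ℕ) := by
      by_contra h
      rw [if_neg h, norm_zero] at hk
      exact lt_irrefl _ hk
    rw [if_pos hk0, norm_one] at hlt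
    have : (⨆ n : ℕ, ‖(if n ∈ ({0} : Finset ℕ) then (1 : 𝕜) else 0)‖) ≤ 1 := by
      apply ciSup_le
      intro m
      split_ifs
      · rw [norm_one]
      · rw [norm_zero]
        exact zero_le_one
    linarith

lemma basis_ne_zero (hb : ∀ v : X, ∃! a : ℕ → 𝕜,
      Tendsto (fun m => ∑ i ∈ Finset.range m, a i • x i) atTop (𝓝 v)) : x 0 ≠ 0 := by
  intro h
  have h0 := fin_exp (x := x) {0} (fun _ => (1 : 𝕜))
  rw [Finset.sum_singleton, one_smul, h] at h0
  have h1 : Tendsto (fun m => ∑ i ∈ Finset.range m, (0 : ℕ → 𝕜) i • x i) atTop (𝓝 0) := by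
    simp
  have h2 := congrFun ((hb 0).unique h0 h1) 0
  simp at h2

/-- Under Property (A), removing a greedy set does not increase the norm. -/
lemma conv_greedy (N : Seminorm 𝕜 X)
    (hA : ∀ (z w : X) (a b : ℕ → 𝕜),
      Tendsto (fun m => ∑ i ∈ Finset.range m, a i • x i) atTop (𝓝 z) →
      Tendsto (fun m => ∑ i ∈ Finset.range m, b i • x i) atTop (𝓝 w) →
      (∃ π : Equiv.Perm ℕ, (∀ n, ‖b (π n)‖ = ‖a n‖) ∧
        ∀ k, 0 < ‖a k‖ → ‖a k‖ < ⨆ n, ‖a n‖ → π k = k ∧ b k = a k) → N z = N w) :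
    ∀ (k : ℕ) (A : Finset ℕ), A.card = k → ∀ (v : X) (a : ℕ → 𝕜),
      Tendsto (fun m => ∑ i ∈ Finset.range m, a i • x i) atTop (𝓝 v) →
      (∀ n ∈ A, ∀ k, k ∉ A → ‖a k‖ ≤ ‖a n‖) → N (v - ∑ n ∈ A, a n • x n) ≤ N v := by
  intro k
  induction k with
  | zero =>
    intro A hk v a _ _
    rw [Finset.card_eq_zero.1 hk, Finset.sum_empty, sub_zero]
  | succ k ih =>
    intro A hk v a h hg
    have hne : A.Nonempty := Finset.card_pos.1 (by omega)
    obtain ⟨n0, hn0, hmax⟩ := Finset.exists_max_image A (fun n => ‖a n‖) hne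
    have hall : ∀ m, ‖a m‖ ≤ ‖a n0‖ := by
      intro m
      by_cases hm : m ∈ A
      · exact hmax m hm
      · exact hg n0 hn0 m hm
    have hs := fin_exp (x := x) {n0} a
    rw [Finset.sum_singleton] at hs
    set d : ℕ → 𝕜 := fun i => if i ∈ ({n0} : Finset ℕ) then a i else 0 with hd
    have hd0 : d n0 = a n0 := if_pos (Finset.mem_singleton_self _)
    have hd1 : ∀ i, i ≠ n0 → d i = 0 := fun i hi =>
      if_neg (fun h => hi (Finset.mem_singleton.1 h))
    set a' : ℕ → 𝕜 := fun i => a i - d i with ha'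
    set b : ℕ → 𝕜 := fun i => a' i - d i with hbd
    have hT' : Tendsto (fun m => ∑ i ∈ Finset.range m, a' i • x i) atTop
        (𝓝 (v - a n0 • x n0)) := by
      refine (h.sub hs).congr fun m => ?_
      rw [← Finset.sum_sub_distrib]
      exact Finset.sum_congr rfl fun i _ => (sub_smul _ _ _).symm
    have hTb : Tendsto (fun m => ∑ i ∈ Finset.range m, b i • x i) atTop
        (𝓝 (v - a n0 • x n0 - a n0 • x n0)) := by
      refine (hT'.sub hs).congr fun m => ?_
      rw [← Finset.sum_sub_distrib]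
      exact Finset.sum_congr rfl fun i _ => (sub_smul _ _ _).symm
    have ha'0 : a' n0 = 0 := by
      rw [ha']
      simp only
      rw [hd0, sub_self]
    have ha'1 : ∀ i, i ≠ n0 → a' i = a i := by
      intro i hi
      rw [ha']
      simp only
      rw [hd1 i hi, sub_zero]
    have hb0 : b n0 = - a n0 := by
      rw [hbd]
      simp only
      rw [ha'0, hd0, zero_sub]
    have hb1 : ∀ i, i ≠ n0 → b i = a i := by
      intro i hi
      rw [hbd]
      simp only
      rw [ha'1 i hi, hd1 i hi, sub_zero]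
    have hN : N v = N (v - a n0 • x n0 - a n0 • x n0) := by
      refine hA _ _ _ _ h hTb ⟨Equiv.refl ℕ, ?_, ?_⟩
      · intro m
        rw [Equiv.refl_apply]
        by_cases hm : m = n0
        · rw [hm, hb0, norm_neg]
        · rw [hb1 m hm]
      · intro m _ hlt
        refine ⟨rfl, ?_⟩
        by_cases hm : m = n0
        · exfalso
          have : (⨆ n, ‖a n‖) ≤ ‖a n0‖ := ciSup_le hall
          rw [hm] at hlt
          linarith
        · exact hb1 m hm
    have hhalf : N (v - a n0 • x n0) ≤ N v := by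
      have e : (2 : 𝕜) • (v - a n0 • x n0) = v + (v - a n0 • x n0 - a n0 • x n0) := by
        rw [two_smul]
        abel
      have h1 : N ((2 : 𝕜) • (v - a n0 • x n0)) = 2 * N (v - a n0 • x n0) := by
        rw [map_smul_eq_mul, RCLike.norm_ofNat]
      have h2 := map_add_le_add N v (v - a n0 • x n0 - a n0 • x n0)
      rw [← e, h1, ← hN] at h2
      linarith
    have hcard : (A.erase n0).card = k := by
      rw [Finset.card_erase_of_mem hn0]
      omega
    have hI := ih (A.erase n0) hcard _ _ hT' (by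
      intro n hn m hm
      have hnn : n ≠ n0 := Finset.ne_of_mem_erase hn
      have hnA : n ∈ A := Finset.mem_of_mem_erase hn
      rw [ha'1 n hnn]
      by_cases hmn : m = n0
      · rw [hmn, ha'0, norm_zero]
        exact norm_nonneg _
      · rw [ha'1 m hmn]
        exact hg n hnA m (fun h => hm (Finset.mem_erase.2 ⟨hmn, h⟩)))
    have e : v - a n0 • x n0 - ∑ n ∈ A.erase n0, a' n • x n = v - ∑ n ∈ A, a n • x n := by
      rw [← Finset.add_sum_erase A _ hn0, sub_sub]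
      congr 2
      apply Finset.sum_congr rfl
      intro n hn
      rw [ha'1 n (Finset.ne_of_mem_erase hn)]
    rw [e] at hI
    exact hI.trans hhalf

/-- Property (A) implies that the basis is semi-normalised and quasi-greedy. -/
theorem conv_main (hb : ∀ v : X, ∃! a : ℕ → 𝕜,
      Tendsto (fun m => ∑ i ∈ Finset.range m, a i • x i) atTop (𝓝 v)) (N : Seminorm 𝕜 X)
    {c C : ℝ} (hc : 0 < c) (hN : ∀ v, c * ‖v‖ ≤ N v ∧ N v ≤ C * ‖v‖)
    (hA : ∀ (z w : X) (a b : ℕ → 𝕜),
      Tendsto (fun m => ∑ i ∈ Finset.range m, a i • x i) atTop (𝓝 z) →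
      Tendsto (fun m => ∑ i ∈ Finset.range m, b i • x i) atTop (𝓝 w) →
      (∃ π : Equiv.Perm ℕ, (∀ n, ‖b (π n)‖ = ‖a n‖) ∧
        ∀ k, 0 < ‖a k‖ → ‖a k‖ < ⨆ n, ‖a n‖ → π k = k ∧ b k = a k) → N z = N w) :
    (∃ c' C' : ℝ, 0 < c' ∧ ∀ n, c' ≤ ‖x n‖ ∧ ‖x n‖ ≤ C') ∧
    (∃ K : ℝ, ∀ (v : X) (a : ℕ → 𝕜),
      Tendsto (fun m => ∑ i ∈ Finset.range m, a i • x i) atTop (𝓝 v) → ∀ A : Finset ℕ,
      (∀ n ∈ A, ∀ k, k ∉ A → ‖a k‖ ≤ ‖a n‖) → ‖∑ n ∈ A, a n • x n‖ ≤ K * ‖v‖) := by
  have hx0 : 0 < ‖x 0‖ := norm_pos_iff.2 (basis_ne_zero hb)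
  have hN0 : 0 < N (x 0) := lt_of_lt_of_le (mul_pos hc hx0) (hN _).1
  have hC : 0 < C := by
    have := (hN (x 0)).2
    by_contra hcon
    have h2 : C * ‖x 0‖ ≤ 0 := mul_nonpos_of_nonpos_of_nonneg (not_lt.1 hcon) hx0.le
    linarith
  constructor
  · refine ⟨N (x 0) / C, N (x 0) / c, div_pos hN0 hC, fun n => ⟨?_, ?_⟩⟩
    · rw [div_le_iff₀ hC, conv_norm N hA n, mul_comm]
      exact (hN _).2
    · rw [le_div_iff₀ hc, conv_norm N hA n, mul_comm]
      exact (hN _).1
  · refine ⟨2 * C / c, fun v a h A hg => ?_⟩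
    have h1 := conv_greedy N hA _ A rfl v a h hg
    have h2 : N (∑ n ∈ A, a n • x n) ≤ 2 * N v := by
      have e : ∑ n ∈ A, a n • x n = v - (v - ∑ n ∈ A, a n • x n) := by abel
      rw [e]
      refine (map_sub_le_add N _ _).trans ?_
      linarith
    have h3 := (hN (∑ n ∈ A, a n • x n)).1
    have h4 := (hN v).2
    calc _ ≤ (2 * (C * ‖v‖)) / c := by
          rw [le_div_iff₀ hc]
          linarith
      _ = _ := by ring

end

end Pool.Agent.KS6_63.PA
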