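import Mathlib
import Pool.Agent.KS6_63.PA.Build

set_option autoImplicit false

open Filter Topology

namespace Pool.Agent.KS6_63.PA

noncomputable section

variable {𝕜 : Type} [RCLike 𝕜] {H : Type} [NormedAddCommGroup H] [InnerProductSpace 𝕜 H]

lemma signs_le (x : ℕ → H) (A : Finset ℕ) : ∃ ε : ℕ → 𝕜, (∀ n, ‖ε n‖ = 1) ∧
    ‖∑ n ∈ A, ε n • x n‖ ^ 2 ≤ ∑ n ∈ A, ‖x n‖ ^ 2 := by
  induction A using Finset.induction_on with
  | empty => exact ⟨fun _ => 1, fun _ => by simp, by simp⟩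
  | insert n A hn ih =>
    obtain ⟨ε, h1, h2⟩ := ih
    have hpar := parallelogram_law_with_norm 𝕜 (∑ n ∈ A, ε n • x n) (x n)
    have hsum : ∀ d : 𝕜, ∑ k ∈ insert n A, (Function.update ε n d) k • x k =
        ∑ k ∈ A, ε k • x k + d • x n := by
      intro d
      rw [Finset.sum_insert hn, Function.update_self, add_comm]
      congr 1
      apply Finset.sum_congr rfl
      intro k hk
      rw [Function.update_of_ne (by rintro rfl; exact hn hk)]
    have hnorm : ∀ d : 𝕜, ‖d‖ = 1 → ∀ k, ‖(Function.update ε n d) k‖ = 1 := by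
      intro d hd k
      by_cases h : k = n
      · rw [h, Function.update_self, hd]
      · rw [Function.update_of_ne h, h1]
    rw [Finset.sum_insert hn]
    by_cases hc : ‖∑ k ∈ A, ε k • x k + x n‖ ^ 2 ≤ ‖∑ k ∈ A, ε k • x k‖ ^ 2 + ‖x n‖ ^ 2
    · refine ⟨Function.update ε n 1, hnorm 1 (by simp), ?_⟩
      rw [hsum, one_smul]
      linarith
    · refine ⟨Function.update ε n (-1), hnorm (-1) (by simp), ?_⟩
      rw [hsum, neg_one_smul, ← sub_eq_add_neg]
      nlinarith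

lemma signs_ge (x : ℕ → H) (A : Finset ℕ) : ∃ ε : ℕ → 𝕜, (∀ n, ‖ε n‖ = 1) ∧
    ∑ n ∈ A, ‖x n‖ ^ 2 ≤ ‖∑ n ∈ A, ε n • x n‖ ^ 2 := by
  induction A using Finset.induction_on with
  | empty => exact ⟨fun _ => 1, fun _ => by simp, by simp⟩
  | insert n A hn ih =>
    obtain ⟨ε, h1, h2⟩ := ih
    have hpar := parallelogram_law_with_norm 𝕜 (∑ n ∈ A, ε n • x n) (x n)
    have hsum : ∀ d : 𝕜, ∑ k ∈ insert n A, (Function.update ε n d) k • x k =
        ∑ k ∈ A, ε k • x k + d • x n := by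
      intro d
      rw [Finset.sum_insert hn, Function.update_self, add_comm]
      congr 1
      apply Finset.sum_congr rfl
      intro k hk
      rw [Function.update_of_ne (by rintro rfl; exact hn hk)]
    have hnorm : ∀ d : 𝕜, ‖d‖ = 1 → ∀ k, ‖(Function.update ε n d) k‖ = 1 := by
      intro d hd k
      by_cases h : k = n
      · rw [h, Function.update_self, hd]
      · rw [Function.update_of_ne h, h1]
    rw [Finset.sum_insert hn]
    by_cases hc : ‖∑ k ∈ A, ε k • x k‖ ^ 2 + ‖x n‖ ^ 2 ≤ ‖∑ k ∈ A, ε k • x k + x n‖ ^ 2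
    · refine ⟨Function.update ε n 1, hnorm 1 (by simp), ?_⟩
      rw [hsum, one_smul]
      linarith
    · refine ⟨Function.update ε n (-1), hnorm (-1) (by simp), ?_⟩
      rw [hsum, neg_one_smul, ← sub_eq_add_neg]
      nlinarith

variable {x : ℕ → H}

/-- In a Hilbert space a quasi-greedy system with norms between `c` and `C` has fundamental
function equivalent to the square root. -/
lemma hilbert_bounds {c C K : ℝ} (hc : 0 ≤ c) (hK : 0 < K) (hx1 : ∀ n, c ≤ ‖x n‖)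
    (hx2 : ∀ n, ‖x n‖ ≤ C)
    (hq : ∀ (v : H) (a : ℕ → 𝕜),
      Tendsto (fun m => ∑ i ∈ Finset.range m, a i • x i) atTop (𝓝 v) → ∀ A : Finset ℕ,
      (∀ n ∈ A, ∀ k, k ∉ A → ‖a k‖ ≤ ‖a n‖) → ‖∑ n ∈ A, a n • x n‖ ≤ K * ‖v‖) (A : Finset ℕ) :
    c / (4 * K) * (A.card : ℝ) ^ (1 / 2 : ℝ) ≤ ‖∑ n ∈ A, x n‖ ∧
      ‖∑ n ∈ A, x n‖ ≤ 4 * K * C * (A.card : ℝ) ^ (1 / 2 : ℝ) := by
  have hC : 0 ≤ C := (norm_nonneg _).trans (hx2 0)
  have hs : Real.sqrt (A.card : ℝ) ^ 2 = A.card := Real.sq_sqrt (by positivity)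
  rw [← Real.sqrt_eq_rpow]
  constructor
  · obtain ⟨ε, h1, h2⟩ := signs_ge (𝕜 := 𝕜) x A
    have h3 := ucc hq A (fun _ => (1 : 𝕜)) (fun n _ => by simp) ε (fun n _ => (h1 n).le)
    simp only [one_smul] at h3
    have h4 : (c * Real.sqrt A.card) ^ 2 ≤ ‖∑ n ∈ A, ε n • x n‖ ^ 2 := by
      refine le_trans ?_ h2
      rw [mul_pow, hs]
      have := Finset.card_nsmul_le_sum A (fun n => ‖x n‖ ^ 2) (c ^ 2)
        (fun n _ => pow_le_pow_left₀ hc (hx1 n) 2)
      rw [nsmul_eq_mul] at this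
      linarith
    have h5 : c * Real.sqrt A.card ≤ ‖∑ n ∈ A, ε n • x n‖ :=
      le_of_sq_le_sq h4 (norm_nonneg _)
    rw [div_mul_eq_mul_div, div_le_iff₀ (by positivity)]
    linarith
  · obtain ⟨ε, h1, h2⟩ := signs_le (𝕜 := 𝕜) x A
    have h3 := ucc hq A ε (fun n _ => h1 n) (fun _ => (1 : 𝕜)) (fun n _ => by simp)
    simp only [one_smul] at h3
    have h4 : ‖∑ n ∈ A, ε n • x n‖ ^ 2 ≤ (C * Real.sqrt A.card) ^ 2 := by
      refine h2.trans ?_
      rw [mul_pow, hs]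
      have := Finset.sum_le_card_nsmul A (fun n => ‖x n‖ ^ 2) (C ^ 2)
        (fun n _ => pow_le_pow_left₀ (norm_nonneg _) (hx2 n) 2)
      rw [nsmul_eq_mul] at this
      linarith
    have h5 : ‖∑ n ∈ A, ε n • x n‖ ≤ C * Real.sqrt A.card :=
      le_of_sq_le_sq h4 (by positivity)
    calc _ ≤ _ := h3
      _ ≤ 4 * (K * (C * Real.sqrt A.card)) := by gcongr
      _ = _ := by ring

end

end Pool.Agent.KS6_63.PA
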