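import Mathlib
import Pool.Agent.KS6_63.PA.Hilb
import Pool.Agent.KS6_63.PA.Conv

set_option autoImplicit false

open Filter Topology

namespace Pool.Agent.KS6_63.PA

noncomputable section

variable {𝕜 : Type} [RCLike 𝕜]

/-- Renorming of a quasi-greedy basis with fundamental function of power type. -/
theorem renorm {X : Type} [NormedAddCommGroup X] [NormedSpace 𝕜 X] [CompleteSpace X] {x : ℕ → X}
    (hb : ∀ v : X, ∃! a : ℕ → 𝕜,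
      Tendsto (fun m => ∑ i ∈ Finset.range m, a i • x i) atTop (𝓝 v))
    {K c C α : ℝ} (hα0 : 0 < α) (hα1 : α < 1) (hc : 0 < c)
    (hlow : ∀ A : Finset ℕ, c * (A.card : ℝ) ^ α ≤ ‖∑ n ∈ A, x n‖)
    (hup : ∀ A : Finset ℕ, ‖∑ n ∈ A, x n‖ ≤ C * (A.card : ℝ) ^ α)
    (hq : ∀ (v : X) (a : ℕ → 𝕜),
      Tendsto (fun m => ∑ i ∈ Finset.range m, a i • x i) atTop (𝓝 v) → ∀ A : Finset ℕ,
      (∀ n ∈ A, ∀ k, k ∉ A → ‖a k‖ ≤ ‖a n‖) → ‖∑ n ∈ A, a n • x n‖ ≤ K * ‖v‖) :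
    ∃ N : Seminorm 𝕜 X, (∃ c C : ℝ, 0 < c ∧ ∀ v, c * ‖v‖ ≤ N v ∧ N v ≤ C * ‖v‖) ∧
      ∀ (z w : X) (a b : ℕ → 𝕜),
      Tendsto (fun m => ∑ i ∈ Finset.range m, a i • x i) atTop (𝓝 z) →
      Tendsto (fun m => ∑ i ∈ Finset.range m, b i • x i) atTop (𝓝 w) →
      (∃ π : Equiv.Perm ℕ, (∀ n, ‖b (π n)‖ = ‖a n‖) ∧
        ∀ k, 0 < ‖a k‖ → ‖a k‖ < ⨆ n, ‖a n‖ → π k = k ∧ b k = a k) → N z = N w := by
  obtain ⟨S, -, hSa⟩ := exists_sys hb hα0 hα1 hc hlow hup hq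
  refine ⟨NS S, ⟨kap S / S.P, MC S, div_pos (kap_pos S) S.hP,
    fun v => ⟨NN_lower S v, NN_le S v⟩⟩, ?_⟩
  rintro z w a b ha hb' ⟨π, h1, h2⟩
  have ea := coef_unique hb ha
  have eb := coef_unique hb hb'
  rw [NS_apply, NS_apply]
  apply NN_eq_of_rearr S z w π
  · intro n
    rw [hSa, hSa, ← ea, ← eb]
    exact h1 n
  · intro k hk ⟨n, hn⟩
    rw [hSa, hSa, ← ea] at hn
    rw [hSa, ← ea] at hk
    rw [hSa, hSa, ← ea, ← eb]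
    apply h2 k (norm_pos_iff.2 hk)
    refine lt_of_lt_of_le hn (le_ciSup (f := fun n => ‖a n‖) ?_ n)
    have hc' : ∀ n, c ≤ ‖x n‖ := by
      intro n
      have := hlow {n}
      simpa using this
    exact (coef_zero hc hc' ha).bddAbove_range

/-- Renorming of quasi-greedy bases of Hilbert spaces. -/
theorem renorm_hilbert {H : Type} [NormedAddCommGroup H] [InnerProductSpace 𝕜 H] [CompleteSpace H]
    {x : ℕ → H}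
    (hb : ∀ v : H, ∃! a : ℕ → 𝕜,
      Tendsto (fun m => ∑ i ∈ Finset.range m, a i • x i) atTop (𝓝 v))
    {K c C : ℝ} (hc : 0 < c) (hx : ∀ n, c ≤ ‖x n‖ ∧ ‖x n‖ ≤ C)
    (hq : ∀ (v : H) (a : ℕ → 𝕜),
      Tendsto (fun m => ∑ i ∈ Finset.range m, a i • x i) atTop (𝓝 v) → ∀ A : Finset ℕ,
      (∀ n ∈ A, ∀ k, k ∉ A → ‖a k‖ ≤ ‖a n‖) → ‖∑ n ∈ A, a n • x n‖ ≤ K * ‖v‖) :
    ∃ N : Seminorm 𝕜 H, (∃ c C : ℝ, 0 < c ∧ ∀ v, c * ‖v‖ ≤ N v ∧ N v ≤ C * ‖v‖) ∧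
      ∀ (z w : H) (a b : ℕ → 𝕜),
      Tendsto (fun m => ∑ i ∈ Finset.range m, a i • x i) atTop (𝓝 z) →
      Tendsto (fun m => ∑ i ∈ Finset.range m, b i • x i) atTop (𝓝 w) →
      (∃ π : Equiv.Perm ℕ, (∀ n, ‖b (π n)‖ = ‖a n‖) ∧
        ∀ k, 0 < ‖a k‖ → ‖a k‖ < ⨆ n, ‖a n‖ → π k = k ∧ b k = a k) → N z = N w := by
  have hK : 0 < max K 1 := lt_max_of_lt_right one_pos
  have hq' : ∀ (v : H) (a : ℕ → 𝕜),
      Tendsto (fun m => ∑ i ∈ Finset.range m, a i • x i) atTop (𝓝 v) → ∀ A : Finset ℕ,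
      (∀ n ∈ A, ∀ k, k ∉ A → ‖a k‖ ≤ ‖a n‖) → ‖∑ n ∈ A, a n • x n‖ ≤ max K 1 * ‖v‖ :=
    fun v a h A hA => (hq v a h A hA).trans
      (mul_le_mul_of_nonneg_right (le_max_left _ _) (norm_nonneg _))
  have hbd := hilbert_bounds hc.le hK (fun n => (hx n).1) (fun n => (hx n).2) hq'
  exact renorm hb (α := 1 / 2) (by norm_num) (by norm_num) (c := c / (4 * max K 1))
    (by positivity) (fun A => (hbd A).1) (fun A => (hbd A).2) hq'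

end

end Pool.Agent.KS6_63.PA
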